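import Pool.Agent.D0H51.AG.LimR

/-!
# Agreement with Montgomery's conjecture up to `η`, for a proportion of the windows, under RH

Let `E_T(a)` be the error in Montgomery's pair correlation conjecture for the window `[-a, a]`.
On the Riemann hypothesis we prove that for every `0 < η ≤ 1` each interval `[x, x + R]`,
`R ≥ C log (2 / η)`, contains a set of `a` of measure at least `c η R` on which
`|E_T(a)| ≤ η`, for all large `T`.
-/

open MeasureTheory

namespace Pool.Agent.Results.MP_103a5c_nt.AgreementProportion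

/-- the nontrivial zeros of `ζ` with ordinate in `(0, T]` -/
def zeros (T : ℝ) : Set ℂ :=
  {s : ℂ | 0 < s.re ∧ s.re < 1 ∧ 0 < s.im ∧ s.im ≤ T ∧ riemannZeta s = 0}

/-- the multiplicity of `s` as a zero of `ζ` -/
noncomputable def mult (s : ℂ) : ℕ := analyticOrderNatAt riemannZeta s

/-- `N(T; α, β)`: the number of ordered pairs of zeros (counted with multiplicity, the diagonal
included) with ordinates in `(0, T]` whose difference lies in `[2πα / log T, 2πβ / log T]` -/
noncomputable def N (T α β : ℝ) : ℕ :=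
  ∑ᶠ p ∈ {p : ℂ × ℂ | p.1 ∈ zeros T ∧ p.2 ∈ zeros T ∧
    2 * Real.pi * α / Real.log T ≤ p.1.im - p.2.im ∧
    p.1.im - p.2.im ≤ 2 * Real.pi * β / Real.log T}, mult p.1 * mult p.2

/-- the predicted value, `∫_{-a}^{a} (1 - (sin πu / πu)²) du + 1` -/
noncomputable def predicted (a : ℝ) : ℝ :=
  (∫ u in (-a)..a, (1 - (Real.sin (Real.pi * u) / (Real.pi * u)) ^ 2)) + 1

/-- the error in the conjecture for the window `[-a, a]` -/
noncomputable def E (T a : ℝ) : ℝ :=
  (N T (-a) a : ℝ) / (T / (2 * Real.pi) * Real.log T) - predicted a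

lemma predicted_eq (a : ℝ) : predicted a = 2 * N804.PP a + 1 := by
  unfold predicted
  rw [N804.val_win, N804.PP_odd]
  ring

lemma N_eq {T : ℝ} (hT : 1 < T) {a : ℝ} (ha : 0 ≤ a) :
    (N T (-a) a : ℝ) = (2 * N804.CF T a + N804.MF T) * N804.XX T := by
  classical
  have hX := N804.XX_pos hT
  have hL : 0 < Real.log T := Real.log_pos hT
  have hpi := Real.pi_pos
  set S := H370.Zf riemannZeta 0 T with hS
  set h := 2 * Real.pi * a / Real.log T with hh
  have hh0 : 0 ≤ h := by positivity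
  have e0 : 2 * Real.pi * (-a) / Real.log T = -h := by rw [hh]; ring
  have hset : {p : ℂ × ℂ | p.1 ∈ zeros T ∧ p.2 ∈ zeros T ∧
      2 * Real.pi * (-a) / Real.log T ≤ p.1.im - p.2.im ∧
      p.1.im - p.2.im ≤ 2 * Real.pi * a / Real.log T} =
      ↑((S ×ˢ S).filter (fun p : ℂ × ℂ => -h ≤ p.1.im - p.2.im ∧ p.1.im - p.2.im ≤ h)) := by
    ext p
    simp only [Set.mem_ofPred_eq, Finset.coe_filter, Finset.mem_product]
    rw [hS, N804.mem_ZT, N804.mem_ZT, e0]
    unfold zeros N804.ZZ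
    simp only [Set.mem_ofPred_eq]
    tauto
  unfold N
  rw [hset, finsum_mem_coe_finset, Finset.sum_filter, Finset.sum_product]
  have e1 : N804.CF T a = N804.Pc S h / N804.XX T := rfl
  have e2 : N804.MF T = N804.Pe S / N804.XX T := rfl
  rw [e1, e2]
  have e3 : (2 * (N804.Pc S h / N804.XX T) + N804.Pe S / N804.XX T) * N804.XX T =
      N804.Pc S h + N804.Pc S h + N804.Pe S := by
    field_simp
    ring
  rw [e3]
  have e4 : N804.Pc S h = ∑ s ∈ S, ∑ s' ∈ S, if 0 < s'.im - s.im ∧ s'.im - s.im ≤ h then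
      (H370.mult riemannZeta s : ℝ) * (H370.mult riemannZeta s' : ℝ) else 0 := by
    unfold N804.Pc
    rw [Finset.sum_comm]
    refine Finset.sum_congr rfl fun s _ => Finset.sum_congr rfl fun s' _ => ?_
    split_ifs
    · ring
    · rfl
  conv_rhs => rw [e4]
  rw [← e4]
  conv_rhs => rw [show N804.Pc S h + N804.Pc S h + N804.Pe S =
    N804.Pc S h + (∑ s ∈ S, ∑ s' ∈ S, if 0 < s'.im - s.im ∧ s'.im - s.im ≤ h then
      (H370.mult riemannZeta s : ℝ) * (H370.mult riemannZeta s' : ℝ) else 0) + N804.Pe S by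
      rw [← e4]]
  unfold N804.Pc N804.Pe
  rw [← Finset.sum_add_distrib, ← Finset.sum_add_distrib]
  push_cast
  refine Finset.sum_congr rfl fun s _ => ?_
  rw [← Finset.sum_add_distrib, ← Finset.sum_add_distrib]
  refine Finset.sum_congr rfl fun s' _ => ?_
  have em : ∀ z, ((mult z : ℕ) : ℝ) = (H370.mult riemannZeta z : ℝ) := fun z => rfl
  rcases lt_trichotomy s.im s'.im with h1 | h1 | h1
  · have c1 : ¬(0 < s.im - s'.im ∧ s.im - s'.im ≤ h) := by rintro ⟨h2, -⟩; linarith
    have c2 : ¬(s.im = s'.im) := h1.ne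
    rw [if_neg c1, if_neg c2]
    by_cases c3 : s'.im - s.im ≤ h
    · rw [if_pos ⟨by linarith, by linarith⟩, if_pos ⟨by linarith, c3⟩, em, em]
      ring
    · rw [if_neg (by rintro ⟨h2, h3⟩; exact c3 (by linarith)), if_neg (by
        rintro ⟨h2, h3⟩; exact c3 h3)]
      ring
  · have c1 : ¬(0 < s.im - s'.im ∧ s.im - s'.im ≤ h) := by rintro ⟨h2, -⟩; linarith
    have c2 : ¬(0 < s'.im - s.im ∧ s'.im - s.im ≤ h) := by rintro ⟨h2, -⟩; linarith
    rw [if_neg c1, if_neg c2, if_pos h1, if_pos ⟨by linarith, by linarith⟩, em, em]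
    ring
  · have c1 : ¬(0 < s'.im - s.im ∧ s'.im - s.im ≤ h) := by rintro ⟨h2, -⟩; linarith
    have c2 : ¬(s.im = s'.im) := h1.ne'
    rw [if_neg c1, if_neg c2]
    by_cases c3 : s.im - s'.im ≤ h
    · rw [if_pos ⟨by linarith, by linarith⟩, if_pos ⟨by linarith, c3⟩, em, em]
      ring
    · rw [if_neg (by rintro ⟨h2, h3⟩; exact c3 (by linarith)), if_neg (by
        rintro ⟨h2, h3⟩; exact c3 h3)]
      ring

lemma OF_zero (hRH : RiemannHypothesis) {T : ℝ} (hT : 1 < T) : N804.OF T = 0 := by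
  classical
  have h := N804.noff_eq hT
  have hX := N804.XX_pos hT
  have hset : {s : ℂ | s ∈ N804.ZZ ∧ 0 < s.im ∧ s.im ≤ T ∧ s.re ≠ 1 / 2} = ∅ := by
    ext s
    simp only [Set.mem_ofPred_eq, Set.mem_empty_iff_false, iff_false]
    rintro ⟨⟨a1, a2, a3⟩, a4, -, a5⟩
    refine a5 (hRH s a1 ?_ ?_)
    · rintro ⟨n, rfl⟩
      simp at a2
      have : (0 : ℝ) ≤ n := Nat.cast_nonneg n
      linarith
    · rintro rfl
      norm_num at a3
  rw [hset, finsum_mem_empty] at h
  push_cast at h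
  exact (mul_eq_zero.1 h.symm).resolve_right hX.ne'

/-- **Agreement up to `η` for a proportion at least `c η` of the windows `[-a, a]`**, in every
interval of length at least `C log (2 / η)`, on the Riemann hypothesis. -/
theorem result (hRH : RiemannHypothesis) :
    ∃ c C : ℝ, 0 < c ∧ 0 < C ∧ ∀ η R x : ℝ, 0 < η → η ≤ 1 → C * Real.log (2 / η) ≤ R → 0 ≤ x →
      ∃ T₀ : ℝ, ∀ T : ℝ, T₀ ≤ T →
        c * η * R ≤ volume.real {a : ℝ | x ≤ a ∧ a ≤ x + R ∧ |E T a| ≤ η} := by
  obtain ⟨c, C, hc, hC, h⟩ := D0H51.AG.small_RH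
  have hO : Filter.Tendsto N804.OF Filter.atTop (nhds 0) := by
    refine tendsto_const_nhds.congr' ?_
    filter_upwards [Filter.eventually_gt_atTop 1] with T hT
    exact (OF_zero hRH hT).symm
  refine ⟨c, C, hc, hC, fun η R x hη hη1 hR hx => ?_⟩
  obtain ⟨T0, hT0⟩ := Filter.eventually_atTop.1 (h hO η hη hη1 R hR x hx)
  refine ⟨max T0 2, fun T hT => (hT0 T ((le_max_left _ _).trans hT)).trans ?_⟩
  have hT1 : 1 < T := by
    have := (le_max_right T0 2).trans hT
    linarith
  have hX := N804.XX_pos hT1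
  refine measureReal_mono ?_ ?_
  · rintro a ⟨h1, h2⟩
    refine ⟨h2.1.le, h2.2, ?_⟩
    have ha : 0 ≤ a := hx.trans h2.1.le
    have e1 : E T a = D0H51.AG.SS T a := by
      unfold E D0H51.AG.SS
      rw [N_eq hT1 ha, predicted_eq]
      have e2 : T / (2 * Real.pi) * Real.log T = N804.XX T := by unfold N804.XX; ring
      rw [e2, mul_div_assoc, div_self hX.ne']
      ring
    rw [e1]
    exact h1
  · have hsub : {a : ℝ | x ≤ a ∧ a ≤ x + R ∧ |E T a| ≤ η} ⊆ Set.Icc x (x + R) :=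
      fun a ha => ⟨ha.1, ha.2.1⟩
    refine measure_ne_top_of_subset hsub ?_
    rw [Real.volume_Icc]
    exact ENNReal.ofReal_ne_top

end Pool.Agent.Results.MP_103a5c_nt.AgreementProportion
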