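import Pool.Agent.D0H44.FW.Fw

/-!
# Montgomery's function over windows of length greater than one

Montgomery's pair correlation conjecture is essentially the statement `F(α, T) = 1 + o(1)` for
`α ≥ 1`.  We prove that the integral of `F(α, T)` over every window of length greater than one in
`[1, ∞)` is bounded below by a positive constant, in an unconditional form.
-/

set_option autoImplicit false

open Complex

namespace Pool.Agent.Results.MP_103a5c_nt.FormFactorWindows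

/-- the nontrivial zeros of `ζ` with ordinate in `(0, T]` -/
def zeros (T : ℝ) : Set ℂ :=
  {s : ℂ | 0 < s.re ∧ s.re < 1 ∧ 0 < s.im ∧ s.im ≤ T ∧ riemannZeta s = 0}

/-- the multiplicity of `s` as a zero of `ζ` -/
noncomputable def mult (s : ℂ) : ℕ := analyticOrderNatAt riemannZeta s

/-- Montgomery's function `F(α, T)`:
`((T/2π) log T)⁻¹ ∑_γ ∑_γ' T ^ (iα(γ - γ')) w(γ - γ')`, `w(u) = 4 / (4 + u²)`, the zeros being counted
with multiplicity -/
noncomputable def F (α T : ℝ) : ℂ :=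
  ((T / (2 * Real.pi) * Real.log T : ℝ) : ℂ)⁻¹ *
    ∑ᶠ s ∈ zeros T, ∑ᶠ s' ∈ zeros T, (mult s : ℂ) * (mult s' : ℂ) *
      ((T : ℂ) ^ (I * α * ((s.im - s'.im : ℝ) : ℂ)) * (4 / (4 + ((s.im - s'.im : ℝ) : ℂ) ^ 2)))

/-- The unconditional form of Montgomery's function: `i(γ - γ')` is replaced by
`ρ + conj ρ' - 1 = (β + β' - 1) + i(γ - γ')`. -/
noncomputable def G (α T : ℝ) : ℂ :=
  ((T / (2 * Real.pi) * Real.log T : ℝ) : ℂ)⁻¹ *
    ∑ᶠ s ∈ zeros T, ∑ᶠ s' ∈ zeros T, (mult s : ℂ) * (mult s' : ℂ) *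
      ((T : ℂ) ^ (α * (s + (starRingEnd ℂ) s' - 1)) *
        (4 / (4 - (s + (starRingEnd ℂ) s' - 1) ^ 2)))

theorem zeros_finite (T : ℝ) : (zeros T).Finite := H370.zeta_zeros_finite T

theorem Z0_eq (T : ℝ) : Pool.Agent.D0H44.FW.Z0 T = (zeros_finite T).toFinset := rfl

theorem G_eq (α T : ℝ) (hT : 0 < T) :
    G α T = ((T / (2 * Real.pi) * Real.log T : ℝ) : ℂ)⁻¹ *
      H343.PPair H343.kW (α * Real.log T) (Pool.Agent.D0H44.FW.Z0 T) Pool.Agent.D0H44.FW.mz := by
  classical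
  unfold G H343.PPair
  rw [finsum_mem_eq_finite_toFinset_sum _ (zeros_finite T), Z0_eq]
  congr 1
  apply Finset.sum_congr rfl
  intro s _
  rw [finsum_mem_eq_finite_toFinset_sum _ (zeros_finite T)]
  apply Finset.sum_congr rfl
  intro s' _
  have hT0 : (T : ℂ) ≠ 0 := by exact_mod_cast hT.ne'
  rw [Complex.cpow_def_of_ne_zero hT0, ← Complex.ofReal_log hT.le]
  unfold H343.kW Pool.Agent.D0H44.FW.mz H370.mult mult
  push_cast
  congr 2
  congr 1
  ring

theorem re_half (hRH : RiemannHypothesis) {T : ℝ} {s : ℂ} (hs : s ∈ zeros T) : s.re = 1 / 2 := by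
  obtain ⟨h1, h2, h3, h4, h5⟩ := hs
  refine hRH s h5 ?_ ?_
  · rintro ⟨n, hn⟩
    rw [hn] at h3
    simp at h3
  · intro h
    rw [h] at h3
    simp at h3

theorem G_eq_F (hRH : RiemannHypothesis) (α T : ℝ) : G α T = F α T := by
  classical
  unfold G F
  rw [finsum_mem_eq_finite_toFinset_sum _ (zeros_finite T),
    finsum_mem_eq_finite_toFinset_sum _ (zeros_finite T)]
  congr 1
  apply Finset.sum_congr rfl
  intro s hs
  rw [finsum_mem_eq_finite_toFinset_sum _ (zeros_finite T),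
    finsum_mem_eq_finite_toFinset_sum _ (zeros_finite T)]
  apply Finset.sum_congr rfl
  intro s' hs'
  have h1 : s.re = 1 / 2 := re_half hRH ((zeros_finite T).mem_toFinset.1 hs)
  have h2 : s'.re = 1 / 2 := re_half hRH ((zeros_finite T).mem_toFinset.1 hs')
  have h3 : s + (starRingEnd ℂ) s' - 1 = I * ((s.im - s'.im : ℝ) : ℂ) := by
    apply Complex.ext
    · simp [h1, h2]
      norm_num
    · simp
      ring
  rw [h3]
  have h4 : (4 : ℂ) - (I * ((s.im - s'.im : ℝ) : ℂ)) ^ 2 = 4 + ((s.im - s'.im : ℝ) : ℂ) ^ 2 := by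
    rw [mul_pow, Complex.I_sq]
    ring
  rw [h4, show (α : ℂ) * (I * ((s.im - s'.im : ℝ) : ℂ)) = I * α * ((s.im - s'.im : ℝ) : ℂ) by ring]

theorem G_re (α T : ℝ) (hT : 2 ≤ T) : (G α T).im = 0 ∧ (G α T).re =
    (T / (2 * Real.pi) * Real.log T)⁻¹ * Pool.Agent.D0H44.FW.PW T (α * Real.log T) := by
  have hT0 : 0 < T := by linarith
  rw [G_eq α T hT0, ← Complex.ofReal_inv]
  have h := (Pool.Agent.D0H44.FW.pairW_eq (α * Real.log T) (Pool.Agent.D0H44.FW.Z0 T)
    Pool.Agent.D0H44.FW.mz (Pool.Agent.D0H44.FW.Z0_strip T)).2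
  constructor
  · rw [Complex.im_ofReal_mul, h, Complex.ofReal_im, mul_zero]
  · rw [Complex.re_ofReal_mul]
    rfl

/-- uniformity over a compact range of windows -/
theorem unif (ε : ℝ) (hε : 0 < ε) (n : ℕ) :
    ∃ c T₀ : ℝ, 0 < c ∧ 2 ≤ T₀ ∧ ∀ T : ℝ, T₀ ≤ T → ∀ i : ℕ, i ≤ n →
      c ≤ ∫ α in (1 + i * (ε / 2))..(1 + i * (ε / 2) + 1 + ε / 2), (G α T).re := by
  have hone : ∀ i : ℕ, ∃ c T₀ : ℝ, 0 < c ∧ 2 ≤ T₀ ∧ ∀ T : ℝ, T₀ ≤ T →
      c ≤ ∫ α in (1 + i * (ε / 2))..(1 + i * (ε / 2) + 1 + ε / 2), (G α T).re := by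
    intro i
    obtain ⟨c, T₀, hc, hT₀, h⟩ := Pool.Agent.D0H44.FW.window_alpha (1 + i * (ε / 2)) (ε / 2)
      (by
        have : 0 ≤ (i : ℝ) * (ε / 2) := by positivity
        linarith) (by positivity)
    refine ⟨c, T₀, hc, hT₀, fun T hT => ?_⟩
    have hT2 : 2 ≤ T := hT₀.trans hT
    have hX : 0 < T / (2 * Real.pi) * Real.log T := by
      have := Real.pi_pos
      have := Real.log_pos (by linarith : (1 : ℝ) < T)
      positivity
    have h1 := h T hT
    have h2 : ∀ α : ℝ, (G α T).re =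
      (T / (2 * Real.pi) * Real.log T)⁻¹ * Pool.Agent.D0H44.FW.PW T (α * Real.log T) :=
      fun α => (G_re α T hT2).2
    simp only [h2]
    rw [intervalIntegral.integral_const_mul, inv_mul_eq_div, le_div_iff₀ hX]
    exact h1
  induction n with
  | zero =>
    obtain ⟨c, T₀, hc, hT₀, h⟩ := hone 0
    refine ⟨c, T₀, hc, hT₀, fun T hT i hi => ?_⟩
    have : i = 0 := by omega
    subst this
    exact h T hT
  | succ n ih =>
    obtain ⟨c₁, T₁, hc₁, hT₁, h₁⟩ := ih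
    obtain ⟨c₂, T₂, hc₂, hT₂, h₂⟩ := hone (n + 1)
    refine ⟨min c₁ c₂, max T₁ T₂, lt_min hc₁ hc₂, hT₁.trans (le_max_left _ _), fun T hT i hi => ?_⟩
    rcases Nat.lt_or_ge i (n + 1) with h | h
    · exact (min_le_left _ _).trans (h₁ T ((le_max_left _ _).trans hT) i (by omega))
    · have : i = n + 1 := by omega
      subst this
      exact (min_le_right _ _).trans (h₂ T ((le_max_right _ _).trans hT))

/-- **Montgomery's function over windows of length greater than one.**  Unconditionally `G(α, T)` is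
real and nonnegative, and its integral over `[x, x + 1 + ε]` is at least `c(B, ε) > 0` for all
`1 ≤ x ≤ B`, `T ≥ T₀(B, ε)`; under the Riemann hypothesis `G(α, T)` is Montgomery's `F(α, T)`. -/
theorem result :
    (∀ B ε : ℝ, 0 < ε → ∃ c T₀ : ℝ, 0 < c ∧ ∀ T : ℝ, T₀ ≤ T →
      (∀ α : ℝ, (G α T).im = 0 ∧ 0 ≤ (G α T).re) ∧
      ∀ x : ℝ, 1 ≤ x → x ≤ B → c ≤ ∫ α in x..(x + 1 + ε), (G α T).re) ∧
    (RiemannHypothesis → ∀ α T : ℝ, G α T = F α T) := by
  refine ⟨fun B ε hε => ?_, G_eq_F⟩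
  obtain ⟨n, hn⟩ := exists_nat_ge ((B - 1) / (ε / 2) + 1)
  obtain ⟨c, T₀, hc, hT₀, h⟩ := unif ε hε n
  refine ⟨c, T₀, hc, fun T hT => ?_⟩
  have hT2 : 2 ≤ T := hT₀.trans hT
  have hX : 0 < T / (2 * Real.pi) * Real.log T := by
    have := Real.pi_pos
    have := Real.log_pos (by linarith : (1 : ℝ) < T)
    positivity
  have hG : ∀ α : ℝ, (G α T).im = 0 ∧ 0 ≤ (G α T).re := by
    intro α
    obtain ⟨h1, h2⟩ := G_re α T hT2
    refine ⟨h1, ?_⟩
    rw [h2]
    exact mul_nonneg (inv_nonneg.2 hX.le) (Pool.Agent.D0H44.FW.PW_nonneg' T _)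
  have hGc : Continuous (fun α : ℝ => (G α T).re) := by
    have e : (fun α : ℝ => (G α T).re) = fun α : ℝ =>
        (T / (2 * Real.pi) * Real.log T)⁻¹ * Pool.Agent.D0H44.FW.PW T (α * Real.log T) := by
      funext α
      exact (G_re α T hT2).2
    rw [e]
    have := Pool.Agent.D0H44.FW.PW_cont' T
    fun_prop
  refine ⟨hG, fun x hx hxB => ?_⟩
  -- the grid point
  obtain ⟨y, hy⟩ : ∃ y : ℝ, y = (x - 1) / (ε / 2) := ⟨_, rfl⟩
  have hyε : y * (ε / 2) = x - 1 := by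
    rw [hy]
    field_simp
  have hy0 : 0 ≤ y := by
    rw [hy]
    apply div_nonneg <;> linarith
  obtain ⟨i, hi⟩ : ∃ i : ℕ, i = ⌈y⌉₊ := ⟨_, rfl⟩
  have hi1 : y ≤ i := by rw [hi]; exact Nat.le_ceil y
  have hi2 : (i : ℝ) < y + 1 := by rw [hi]; exact Nat.ceil_lt_add_one hy0
  have hin : i ≤ n := by
    have h1 : (i : ℝ) ≤ n := by
      refine hi2.le.trans (le_trans ?_ hn)
      rw [hy]
      have : (x - 1) / (ε / 2) ≤ (B - 1) / (ε / 2) := by
        apply div_le_div_of_nonneg_right _ (by positivity)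
        linarith
      linarith
    exact_mod_cast h1
  have h1 : x ≤ 1 + i * (ε / 2) := by
    have := mul_le_mul_of_nonneg_right hi1 (by positivity : 0 ≤ ε / 2)
    linarith
  have h2 : 1 + i * (ε / 2) + 1 + ε / 2 ≤ x + 1 + ε := by
    have := mul_le_mul_of_nonneg_right hi2.le (by positivity : 0 ≤ ε / 2)
    linarith
  refine (h T hT i hin).trans ?_
  apply intervalIntegral.integral_mono_interval h1 (by linarith) h2
  · exact Filter.Eventually.of_forall fun α => (hG α).2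
  · exact hGc.intervalIntegrable _ _

end Pool.Agent.Results.MP_103a5c_nt.FormFactorWindows
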