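import Pool.Agent.D0H51.AG.PB

/-!
# All large windows in Montgomery's pair correlation conjecture, under RH

On the Riemann hypothesis, for all windows `[α, β]` whose endpoints are at least `a₀` in absolute
value (`a₀` an absolute constant), the number of pairs of zeros with normalised difference in
`[α, β]` differs, after division by `(T / 2π) log T`, from the value in Montgomery's conjecture by
at most `49 / 50`, for all large `T`. The best bound known before is `1 + o(1)` as `a₀ → ∞`.
-/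

open MeasureTheory

namespace Pool.Agent.Results.MP_103a5c_nt.LargeWindows

/-- the nontrivial zeros of `ζ` with ordinate in `(0, T]` -/
def zeros (T : ℝ) : Set ℂ :=
  {s : ℂ | 0 < s.re ∧ s.re < 1 ∧ 0 < s.im ∧ s.im ≤ T ∧ riemannZeta s = 0}

/-- the multiplicity of `s` as a zero of `ζ` -/
noncomputable def mult (s : ℂ) : ℕ := analyticOrderNatAt riemannZeta s

/-- `N(T; α, β)`: the number of ordered pairs of zeros (counted with multiplicity, the diagonal
included) with ordinates in `(0, T]` whose difference lies in `[2πα / log T, 2πβ / log T]` -/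
noncomputable def N (T α β : ℝ) : ℕ :=
  ∑ᶠ p ∈ {p : ℂ × ℂ | p.1 ∈ zeros T ∧ p.2 ∈ zeros T ∧
    2 * Real.pi * α / Real.log T ≤ p.1.im - p.2.im ∧
    p.1.im - p.2.im ≤ 2 * Real.pi * β / Real.log T}, mult p.1 * mult p.2

/-- the predicted value, `∫_α^β (1 - (sin πu / πu)²) du + δ(α, β)` -/
noncomputable def predicted (α β : ℝ) : ℝ :=
  (∫ u in α..β, (1 - (Real.sin (Real.pi * u) / (Real.pi * u)) ^ 2)) +
    if α ≤ 0 ∧ 0 ≤ β then 1 else 0

lemma predicted_eq (α β : ℝ) : predicted α β = N804.PP β - N804.PP α +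
    if α ≤ 0 ∧ 0 ≤ β then 1 else 0 := by
  unfold predicted
  rw [N804.val_win]

lemma N_eq {T : ℝ} (hT : 1 < T) (α β : ℝ) :
    (N T α β : ℝ) = D0H51.AG.WF T α β * N804.XX T := by
  classical
  have hX := N804.XX_pos hT
  set S := H370.Zf riemannZeta 0 T with hS
  set x := 2 * Real.pi * α / Real.log T with hx
  set y := 2 * Real.pi * β / Real.log T with hy
  have hset : {p : ℂ × ℂ | p.1 ∈ zeros T ∧ p.2 ∈ zeros T ∧
      x ≤ p.1.im - p.2.im ∧ p.1.im - p.2.im ≤ y} =
      ↑((S ×ˢ S).filter (fun p : ℂ × ℂ => x ≤ p.1.im - p.2.im ∧ p.1.im - p.2.im ≤ y)) := by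
    ext p
    simp only [Set.mem_ofPred_eq, Finset.coe_filter, Finset.mem_product]
    rw [hS, N804.mem_ZT, N804.mem_ZT]
    unfold zeros N804.ZZ
    simp only [Set.mem_ofPred_eq]
    tauto
  unfold N
  rw [hset, finsum_mem_coe_finset, Finset.sum_filter, Finset.sum_product]
  have e1 : D0H51.AG.WF T α β = D0H51.AG.Pw S x y / N804.XX T := rfl
  rw [e1, div_mul_cancel₀ _ hX.ne']
  unfold D0H51.AG.Pw
  push_cast
  refine Finset.sum_congr rfl fun s _ => Finset.sum_congr rfl fun s' _ => ?_
  have em : ∀ z, ((mult z : ℕ) : ℝ) = (H370.mult riemannZeta z : ℝ) := fun z => rfl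
  split_ifs with h
  · rw [em, em]
  · rfl

/-- **All large windows**: on the Riemann hypothesis, for all windows `[α, β]` with endpoints of
absolute value at least `a₀`, the error in Montgomery's conjecture is at most `49 / 50` for all
large `T`. -/
theorem result (hRH : RiemannHypothesis) :
    ∃ a₀ : ℝ, 0 < a₀ ∧ ∀ α β : ℝ, α < β → a₀ ≤ |α| → a₀ ≤ |β| → ∃ T₀ : ℝ, ∀ T : ℝ, T₀ ≤ T →
      |(N T α β : ℝ) / (T / (2 * Real.pi) * Real.log T) - predicted α β| ≤ 49 / 50 := by
  obtain ⟨a₀, ha₀, h⟩ := D0H51.AG.win_RH hRH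
  refine ⟨a₀, ha₀, fun α β hab hα hβ => ?_⟩
  obtain ⟨T0, hT0⟩ := Filter.eventually_atTop.1 (h α β hab hα hβ)
  refine ⟨max T0 2, fun T hT => ?_⟩
  have hT1 : 1 < T := by
    have := (le_max_right T0 2).trans hT
    linarith
  have h2 := hT0 T ((le_max_left _ _).trans hT)
  have hX := N804.XX_pos hT1
  have e2 : T / (2 * Real.pi) * Real.log T = N804.XX T := by unfold N804.XX; ring
  rw [N_eq hT1, e2, mul_div_assoc, div_self hX.ne', mul_one, predicted_eq]
  exact h2

end Pool.Agent.Results.MP_103a5c_nt.LargeWindows
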