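import Pool.Agent.D0H51.AG.MS

/-!
# The mean square of the error in Montgomery's pair correlation conjecture, under RH

Let `E_T(a)` be the error in Montgomery's pair correlation conjecture for the window `[-a, a]`.
On the Riemann hypothesis we prove that for every interval `[x, x + A]` of windows
`∫_x^{x+A} E_T(a)² da ≤ A / 3 + C`, for all large `T`, with an absolute constant `C`.
-/

open MeasureTheory

namespace Pool.Agent.Results.MP_103a5c_nt.MeanSquare

/-- the nontrivial zeros of `ζ` with ordinate in `(0, T]` -/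
def zeros (T : ℝ) : Set ℂ :=
  {s : ℂ | 0 < s.re ∧ s.re < 1 ∧ 0 < s.im ∧ s.im ≤ T ∧ riemannZeta s = 0}

/-- the multiplicity of `s` as a zero of `ζ` -/
noncomputable def mult (s : ℂ) : ℕ := analyticOrderNatAt riemannZeta s

/-- `N(T; α, β)`: the number of ordered pairs of zeros (counted with multiplicity, the diagonal
included) with ordinates in `(0, T]` whose difference lies in `[2πα / log T, 2πβ / log T]` -/
noncomputable def N (T α β : ℝ) : ℕ :=
  ∑ᶠ p ∈ {p : ℂ × ℂ | p.1 ∈ zeros T ∧ p.2 ∈ zeros T ∧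
    2 * Real.pi * α / Real.log T ≤ p.1.im - p.2.im ∧
    p.1.im - p.2.im ≤ 2 * Real.pi * β / Real.log T}, mult p.1 * mult p.2

/-- the predicted value, `∫_{-a}^{a} (1 - (sin πu / πu)²) du + 1` -/
noncomputable def predicted (a : ℝ) : ℝ :=
  (∫ u in (-a)..a, (1 - (Real.sin (Real.pi * u) / (Real.pi * u)) ^ 2)) + 1

/-- the error in the conjecture for the window `[-a, a]` -/
noncomputable def E (T a : ℝ) : ℝ :=
  (N T (-a) a : ℝ) / (T / (2 * Real.pi) * Real.log T) - predicted a

lemma predicted_eq (a : ℝ) : predicted a = 2 * N804.PP a + 1 := by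
  unfold predicted
  rw [N804.val_win, N804.PP_odd]
  ring

lemma N_eq {T : ℝ} (hT : 1 < T) {a : ℝ} (ha : 0 ≤ a) :
    (N T (-a) a : ℝ) = (2 * N804.CF T a + N804.MF T) * N804.XX T := by
  classical
  have hX := N804.XX_pos hT
  have hL : 0 < Real.log T := Real.log_pos hT
  have hpi := Real.pi_pos
  set S := H370.Zf riemannZeta 0 T with hS
  set h := 2 * Real.pi * a / Real.log T with hh
  have hh0 : 0 ≤ h := by positivity
  have e0 : 2 * Real.pi * (-a) / Real.log T = -h := by rw [hh]; ring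
  have hset : {p : ℂ × ℂ | p.1 ∈ zeros T ∧ p.2 ∈ zeros T ∧
      2 * Real.pi * (-a) / Real.log T ≤ p.1.im - p.2.im ∧
      p.1.im - p.2.im ≤ 2 * Real.pi * a / Real.log T} =
      ↑((S ×ˢ S).filter (fun p : ℂ × ℂ => -h ≤ p.1.im - p.2.im ∧ p.1.im - p.2.im ≤ h)) := by
    ext p
    simp only [Set.mem_ofPred_eq, Finset.coe_filter, Finset.mem_product]
    rw [hS, N804.mem_ZT, N804.mem_ZT, e0]
    unfold zeros N804.ZZ
    simp only [Set.mem_ofPred_eq]
    tauto
  unfold N
  rw [hset, finsum_mem_coe_finset, Finset.sum_filter, Finset.sum_product]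
  have e1 : N804.CF T a = N804.Pc S h / N804.XX T := rfl
  have e2 : N804.MF T = N804.Pe S / N804.XX T := rfl
  rw [e1, e2]
  have e3 : (2 * (N804.Pc S h / N804.XX T) + N804.Pe S / N804.XX T) * N804.XX T =
      N804.Pc S h + N804.Pc S h + N804.Pe S := by
    field_simp
    ring
  rw [e3]
  have e4 : N804.Pc S h = ∑ s ∈ S, ∑ s' ∈ S, if 0 < s'.im - s.im ∧ s'.im - s.im ≤ h then
      (H370.mult riemannZeta s : ℝ) * (H370.mult riemannZeta s' : ℝ) else 0 := by
    unfold N804.Pc
    rw [Finset.sum_comm]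
    refine Finset.sum_congr rfl fun s _ => Finset.sum_congr rfl fun s' _ => ?_
    split_ifs
    · ring
    · rfl
  conv_rhs => rw [e4]
  rw [← e4]
  conv_rhs => rw [show N804.Pc S h + N804.Pc S h + N804.Pe S =
    N804.Pc S h + (∑ s ∈ S, ∑ s' ∈ S, if 0 < s'.im - s.im ∧ s'.im - s.im ≤ h then
      (H370.mult riemannZeta s : ℝ) * (H370.mult riemannZeta s' : ℝ) else 0) + N804.Pe S by
      rw [← e4]]
  unfold N804.Pc N804.Pe
  rw [← Finset.sum_add_distrib, ← Finset.sum_add_distrib]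
  push_cast
  refine Finset.sum_congr rfl fun s _ => ?_
  rw [← Finset.sum_add_distrib, ← Finset.sum_add_distrib]
  refine Finset.sum_congr rfl fun s' _ => ?_
  have em : ∀ z, ((mult z : ℕ) : ℝ) = (H370.mult riemannZeta z : ℝ) := fun z => rfl
  rcases lt_trichotomy s.im s'.im with h1 | h1 | h1
  · have c1 : ¬(0 < s.im - s'.im ∧ s.im - s'.im ≤ h) := by rintro ⟨h2, -⟩; linarith
    have c2 : ¬(s.im = s'.im) := h1.ne
    rw [if_neg c1, if_neg c2]
    by_cases c3 : s'.im - s.im ≤ h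
    · rw [if_pos ⟨by linarith, by linarith⟩, if_pos ⟨by linarith, c3⟩, em, em]
      ring
    · rw [if_neg (by rintro ⟨h2, h3⟩; exact c3 (by linarith)), if_neg (by
        rintro ⟨h2, h3⟩; exact c3 h3)]
      ring
  · have c1 : ¬(0 < s.im - s'.im ∧ s.im - s'.im ≤ h) := by rintro ⟨h2, -⟩; linarith
    have c2 : ¬(0 < s'.im - s.im ∧ s'.im - s.im ≤ h) := by rintro ⟨h2, -⟩; linarith
    rw [if_neg c1, if_neg c2, if_pos h1, if_pos ⟨by linarith, by linarith⟩, em, em]
    ring
  · have c1 : ¬(0 < s'.im - s.im ∧ s'.im - s.im ≤ h) := by rintro ⟨h2, -⟩; linarith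
    have c2 : ¬(s.im = s'.im) := h1.ne'
    rw [if_neg c1, if_neg c2]
    by_cases c3 : s.im - s'.im ≤ h
    · rw [if_pos ⟨by linarith, by linarith⟩, if_pos ⟨by linarith, c3⟩, em, em]
      ring
    · rw [if_neg (by rintro ⟨h2, h3⟩; exact c3 (by linarith)), if_neg (by
        rintro ⟨h2, h3⟩; exact c3 h3)]
      ring

lemma E_eq {T : ℝ} (hT1 : 1 < T) {a : ℝ} (ha : 0 ≤ a) : E T a = D0H51.AG.SS T a := by
  have hX := N804.XX_pos hT1
  unfold E D0H51.AG.SS
  rw [N_eq hT1 ha, predicted_eq]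
  have e2 : T / (2 * Real.pi) * Real.log T = N804.XX T := by unfold N804.XX; ring
  rw [e2, mul_div_assoc, div_self hX.ne']
  ring

/-- **The mean square of the error**: on the Riemann hypothesis, over every interval
`[x, x + A]` of windows `[-a, a]`, the integral of the square of the error is at most
`A / 3 + C`, for all large `T`. -/
theorem result (hRH : RiemannHypothesis) :
    ∃ C : ℝ, ∀ A x : ℝ, 0 ≤ A → 0 ≤ x → ∃ T₀ : ℝ, ∀ T : ℝ, T₀ ≤ T →
      IntervalIntegrable (fun a => (E T a) ^ 2) volume x (x + A) ∧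
      ∫ a in x..(x + A), (E T a) ^ 2 ≤ A / 3 + C := by
  obtain ⟨C, hC, h⟩ := D0H51.AG.ms_RH hRH
  refine ⟨C, fun A x hA hx => ?_⟩
  obtain ⟨T0, hT0⟩ := Filter.eventually_atTop.1 (h A hA x hx)
  refine ⟨max T0 2, fun T hT => ?_⟩
  have hT1 : 1 < T := by
    have := (le_max_right T0 2).trans hT
    linarith
  have h2 := hT0 T ((le_max_left _ _).trans hT)
  have e1 : ∫ a in x..(x + A), (E T a) ^ 2 = ∫ a in x..(x + A), (D0H51.AG.SS T a) ^ 2 := by
    refine intervalIntegral.integral_congr fun a ha => ?_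
    rw [Set.uIcc_of_le (by linarith)] at ha
    show (E T a) ^ 2 = (D0H51.AG.SS T a) ^ 2
    rw [E_eq hT1 (hx.trans ha.1)]
  rw [e1]
  refine ⟨?_, h2⟩
  have i1 := D0H51.AG.SS_sq_int hT1 hx (show x ≤ x + A by linarith)
  refine i1.congr (fun a ha => ?_)
  rw [Set.uIoc_of_le (by linarith)] at ha
  show (D0H51.AG.SS T a) ^ 2 = (E T a) ^ 2
  rw [E_eq hT1 (hx.trans ha.1.le)]

end Pool.Agent.Results.MP_103a5c_nt.MeanSquare
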